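import Mathlib

set_option autoImplicit false

/-!
Families of `a`-subsets of `Fin N` without small transversals, by counting.
-/

namespace Pool.Agent.Y423.DG

open Finset

lemma choose_ratio (N a c : ℕ) : ∀ j : ℕ, j + a + c ≤ N →
    N.choose a * c ^ j ≤ (N - j).choose a * N ^ j := by
  intro j
  induction j with
  | zero => intro _; simp
  | succ j ih =>
    intro h
    have h1 := ih (by omega)
    obtain ⟨n, hn⟩ : ∃ n, N - j = n + 1 := ⟨N - j - 1, by omega⟩
    have h2 : N - (j + 1) = n := by omega
    rw [hn] at h1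
    rw [h2, pow_succ, pow_succ]
    have h3 := Nat.choose_mul_succ_eq n a
    have h4 : (n + 1).choose a * c ≤ n.choose a * N := by
      calc (n + 1).choose a * c ≤ (n + 1).choose a * (n + 1 - a) :=
            Nat.mul_le_mul_left _ (by omega)
        _ = n.choose a * (n + 1) := h3.symm
        _ ≤ n.choose a * N := Nat.mul_le_mul_left _ (by omega)
    calc N.choose a * (c ^ j * c) = (N.choose a * c ^ j) * c := by ring
      _ ≤ ((n + 1).choose a * N ^ j) * c := Nat.mul_le_mul_right _ h1
      _ = ((n + 1).choose a * c) * N ^ j := by ring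
      _ ≤ (n.choose a * N) * N ^ j := Nat.mul_le_mul_right _ h4
      _ = n.choose a * (N ^ j * N) := by ring

/-- A family of `M` sets of size `a` which is not met by any set of at most `t` points. -/
theorem exists_family (N a t M : ℕ) (hN : 1 ≤ N) (hat : a + t ≤ N)
    (h : (t : ℝ) * Real.log N < M * (((N - a - t : ℕ) : ℝ) / N) ^ t) :
    ∃ A : Fin M → Finset (Fin N), (∀ d, (A d).card = a) ∧
      ∀ T : Finset (Fin N), T.card ≤ t → ∃ d, Disjoint (A d) T := by
  classical
  set P : Finset (Finset (Fin N)) := powersetCard a univ with hP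
  have hPc : P.card = N.choose a := by rw [hP, card_powersetCard, card_univ, Fintype.card_fin]
  have hNa : a ≤ N := by omega
  have hCpos : 0 < N.choose a := Nat.choose_pos hNa
  -- sets avoiding `T`
  have hav : ∀ T : Finset (Fin N), T.card = t →
      (P.filter (fun S => ¬ Disjoint S T)).card = N.choose a - (N - t).choose a := by
    intro T hT
    have h1 : (P.filter (fun S => Disjoint S T)).card = (N - t).choose a := by
      have h2 : P.filter (fun S => Disjoint S T) = powersetCard a (Tᶜ) := by
        ext S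
        rw [hP, mem_filter, mem_powersetCard, mem_powersetCard]
        constructor
        · rintro ⟨⟨-, h3⟩, h4⟩
          exact ⟨fun x hx => mem_compl.mpr (Finset.disjoint_left.mp h4 hx), h3⟩
        · rintro ⟨h3, h4⟩
          exact ⟨⟨subset_univ _, h4⟩, Finset.disjoint_left.mpr fun x hx => mem_compl.mp (h3 hx)⟩
      rw [h2, card_powersetCard, card_compl, Fintype.card_fin, hT]
    have h3 := Finset.card_filter_add_card_filter_not (s := P) (fun S => Disjoint S T)
    rw [h1, hPc] at h3
    omega
  by_contra hcon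
  push Not at hcon
  have hsub : Fintype.piFinset (fun _ : Fin M => P) ⊆
      (powersetCard t (univ : Finset (Fin N))).biUnion (fun T =>
        Fintype.piFinset (fun _ : Fin M => P.filter (fun S => ¬ Disjoint S T))) := by
    intro A hA
    rw [Fintype.mem_piFinset] at hA
    obtain ⟨T, hT1, hT2⟩ := hcon A (fun d => by
      have := hA d
      rw [hP, mem_powersetCard] at this
      exact this.2)
    obtain ⟨T', hT', hT''⟩ := Finset.exists_superset_card_eq hT1
      (by rw [Fintype.card_fin]; omega)
    rw [mem_biUnion]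
    refine ⟨T', mem_powersetCard.mpr ⟨subset_univ _, hT''⟩, ?_⟩
    rw [Fintype.mem_piFinset]
    intro d
    rw [mem_filter]
    exact ⟨hA d, fun hd => hT2 d (Finset.disjoint_of_subset_right hT' hd)⟩
  have hcard := (Finset.card_le_card hsub).trans Finset.card_biUnion_le
  rw [Fintype.card_piFinset, prod_const, card_univ, Fintype.card_fin, hPc] at hcard
  have hle : ∑ T ∈ powersetCard t (univ : Finset (Fin N)),
      (Fintype.piFinset (fun _ : Fin M => P.filter (fun S => ¬ Disjoint S T))).card =
      N.choose t * (N.choose a - (N - t).choose a) ^ M := by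
    rw [Finset.sum_congr rfl (g := fun _ => (N.choose a - (N - t).choose a) ^ M)]
    · rw [sum_const, card_powersetCard, card_univ, Fintype.card_fin, smul_eq_mul]
    · intro T hT
      rw [mem_powersetCard] at hT
      rw [Fintype.card_piFinset, prod_const, card_univ, Fintype.card_fin, hav T hT.2]
  rw [hle] at hcard
  -- real estimate
  have hNR : (0 : ℝ) < N := by exact_mod_cast hN
  have hCR : (0 : ℝ) < N.choose a := by exact_mod_cast hCpos
  set ρ : ℝ := ((N - t).choose a : ℝ) / N.choose a with hρ
  set r : ℝ := (((N - a - t : ℕ) : ℝ) / N) ^ t with hr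
  have hrρ : r ≤ ρ := by
    rw [hr, hρ, div_pow, div_le_div_iff₀ (by positivity) hCR]
    have := choose_ratio N a (N - a - t) t (by omega)
    have h2 : ((N.choose a * (N - a - t) ^ t : ℕ) : ℝ) ≤ (((N - t).choose a * N ^ t : ℕ) : ℝ) := by
      exact_mod_cast this
    push_cast at h2
    linarith
  have hρ1 : ρ ≤ 1 := by
    rw [hρ, div_le_one hCR]
    exact_mod_cast Nat.choose_le_choose a (Nat.sub_le _ _)
  have h1 : (N.choose a : ℝ) ^ M ≤ (N : ℝ) ^ t * ((N.choose a : ℝ) * (1 - ρ)) ^ M := by
    have h2 : ((N.choose a ^ M : ℕ) : ℝ) ≤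
        ((N.choose t * (N.choose a - (N - t).choose a) ^ M : ℕ) : ℝ) := by exact_mod_cast hcard
    push_cast [Nat.cast_sub (Nat.choose_le_choose a (Nat.sub_le N t))] at h2
    refine h2.trans ?_
    have h3 : (N.choose a : ℝ) * (1 - ρ) = N.choose a - (N - t).choose a := by
      rw [hρ]
      field_simp
    rw [h3]
    refine mul_le_mul_of_nonneg_right ?_ ?_
    · exact_mod_cast Nat.choose_le_pow N t
    · apply pow_nonneg
      rw [← h3]
      exact mul_nonneg hCR.le (by linarith)
  rw [mul_pow] at h1
  have h2 : (1 : ℝ) ≤ (N : ℝ) ^ t * (1 - ρ) ^ M := by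
    have h3 : (0 : ℝ) < (N.choose a : ℝ) ^ M := by positivity
    have h4 : (N.choose a : ℝ) ^ M * 1 ≤ (N.choose a : ℝ) ^ M * ((N : ℝ) ^ t * (1 - ρ) ^ M) := by
      rw [mul_one]
      refine h1.trans (le_of_eq (by ring))
    exact le_of_mul_le_mul_left h4 h3
  have h3 : (1 - ρ) ^ M ≤ Real.exp (-(ρ * M)) := by
    have h4 : (1 - ρ) ≤ Real.exp (-ρ) := Real.one_sub_le_exp_neg ρ
    calc (1 - ρ) ^ M ≤ (Real.exp (-ρ)) ^ M := pow_le_pow_left₀ (by linarith) h4 M
      _ = Real.exp (-(ρ * M)) := by rw [← Real.exp_nat_mul]; ring_nf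
  have h4 : (N : ℝ) ^ t = Real.exp (t * Real.log N) := by
    rw [Real.exp_nat_mul, Real.exp_log hNR]
  have h5 : (1 : ℝ) ≤ Real.exp (t * Real.log N - ρ * M) := by
    refine h2.trans ?_
    rw [h4, show (t : ℝ) * Real.log N - ρ * M = t * Real.log N + -(ρ * M) by ring, Real.exp_add]
    exact mul_le_mul_of_nonneg_left h3 (Real.exp_pos _).le
  rw [Real.one_le_exp_iff] at h5
  have h6 : r * M ≤ ρ * M := mul_le_mul_of_nonneg_right hrρ (Nat.cast_nonneg M)
  nlinarith

end Pool.Agent.Y423.DG
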