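import Pool.Agent.Y423.DG.Defs

set_option autoImplicit false

/-!
The graph of two families `A`, `B` of subsets of `Fin N`: `L` blocks; in every block `M` vertices
`d`, `M * R` vertices `(d, f)`, and `N` classes of `m` vertices of a large clique.
-/

namespace Pool.Agent.Y423.DG

open Finset

section construction

variable (L N m e : ℕ) {M R : ℕ}

abbrev WW : Type := (Fin L × Fin N × Fin m) ⊕ Fin e
abbrev VV (M R : ℕ) : Type := WW L N m e ⊕ (Fin L × (Fin M ⊕ Fin M × Fin R))

/-- One-sided adjacency relation. -/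
def rel (A : Fin M → Finset (Fin N)) (B : Fin R → Finset (Fin N)) :
    VV L N m e M R → VV L N m e M R → Prop
  | Sum.inl _, Sum.inl _ => True
  | Sum.inl (Sum.inl (i, p, _)), Sum.inr (j, Sum.inl d) => i = j ∧ p ∈ A d
  | Sum.inl (Sum.inl (i, p, _)), Sum.inr (j, Sum.inr (_, f)) => i = j ∧ p ∈ B f
  | Sum.inr (i, Sum.inl d), Sum.inr (j, Sum.inr (d', _)) => i = j ∧ d = d'
  | _, _ => False

def GG (A : Fin M → Finset (Fin N)) (B : Fin R → Finset (Fin N)) :
    SimpleGraph (VV L N m e M R) := SimpleGraph.fromRel (rel L N m e A B)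

/-- classes of vertices -/
def cls : VV L N m e M R → Option (Fin L) × Option (Fin M)
  | Sum.inl (Sum.inl (i, _, _)) => (some i, none)
  | Sum.inl (Sum.inr _) => (none, none)
  | Sum.inr (i, Sum.inl d) => (some i, some d)
  | Sum.inr (i, Sum.inr (d, _)) => (some i, some d)

variable {L N m e} {A : Fin M → Finset (Fin N)} {B : Fin R → Finset (Fin N)}

lemma closed_all {V : Type} (G : SimpleGraph V) (hconn : G.Connected) (P : V → Prop) (a : V)
    (ha : P a) (hstep : ∀ x y, P x → G.Adj x y → P y) : ∀ w, P w := by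
  intro w
  obtain ⟨p⟩ := hconn.preconnected a w
  induction p with
  | nil => exact ha
  | cons h p ih => exact ih (hstep _ _ ha h)

/-- neighbours of `(d,f)` -/
lemma adj_df {i : Fin L} {d : Fin M} {f : Fin R} {v : VV L N m e M R}
    (h : (GG L N m e A B).Adj (Sum.inr (i, Sum.inr (d, f))) v) :
    v = Sum.inr (i, Sum.inl d) ∨ ∃ p t, p ∈ B f ∧ v = Sum.inl (Sum.inl (i, p, t)) := by
  rw [GG, SimpleGraph.fromRel_adj] at h
  obtain ⟨_, h⟩ := h
  rcases v with (⟨j, p, t⟩ | x) | ⟨j, d' | ⟨d', f'⟩⟩
  · simp only [rel, false_or] at h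
    right
    exact ⟨p, t, h.2, by rw [h.1]⟩
  · simp [rel] at h
  · simp only [rel, false_or] at h
    left
    rw [h.1, h.2]
  · simp [rel] at h

/-- neighbours of `d` -/
lemma adj_d {i : Fin L} {d : Fin M} {v : VV L N m e M R}
    (h : (GG L N m e A B).Adj (Sum.inr (i, Sum.inl d)) v) :
    (∃ f, v = Sum.inr (i, Sum.inr (d, f))) ∨
      ∃ p t, p ∈ A d ∧ v = Sum.inl (Sum.inl (i, p, t)) := by
  rw [GG, SimpleGraph.fromRel_adj] at h
  obtain ⟨_, h⟩ := h
  rcases v with (⟨j, p, t⟩ | x) | ⟨j, d' | ⟨d', f'⟩⟩
  · simp only [rel, false_or] at h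
    right
    exact ⟨p, t, h.2, by rw [h.1]⟩
  · simp [rel] at h
  · simp [rel] at h
  · simp only [rel, or_false] at h
    left
    exact ⟨f', by rw [h.1, h.2]⟩

lemma adj_WW {a b : WW L N m e} (h : a ≠ b) :
    (GG L N m e A B).Adj (Sum.inl a) (Sum.inl b) := by
  rw [GG, SimpleGraph.fromRel_adj]
  refine ⟨by simpa using h, Or.inl ?_⟩
  rcases a with a | a <;> rcases b with b | b <;> simp [rel]

lemma adj_Wd {i : Fin L} {p : Fin N} {t : Fin m} {d : Fin M} (h : p ∈ A d) :
    (GG L N m e A B).Adj (Sum.inl (Sum.inl (i, p, t))) (Sum.inr (i, Sum.inl d)) := by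
  rw [GG, SimpleGraph.fromRel_adj]
  exact ⟨by simp, Or.inl ⟨rfl, h⟩⟩

lemma adj_Wf {i : Fin L} {p : Fin N} {t : Fin m} {d : Fin M} {f : Fin R} (h : p ∈ B f) :
    (GG L N m e A B).Adj (Sum.inl (Sum.inl (i, p, t))) (Sum.inr (i, Sum.inr (d, f))) := by
  rw [GG, SimpleGraph.fromRel_adj]
  exact ⟨by simp, Or.inl ⟨rfl, h⟩⟩

lemma adj_ddf {i : Fin L} {d : Fin M} {f : Fin R} :
    (GG L N m e A B).Adj (Sum.inr (i, Sum.inl d)) (Sum.inr (i, Sum.inr (d, f))) := by
  rw [GG, SimpleGraph.fromRel_adj]
  exact ⟨by simp, Or.inl ⟨rfl, rfl⟩⟩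

/-- number of elements of `X` in a class -/
noncomputable def cnt (X : Finset (VV L N m e M R)) (o : Option (Fin L) × Option (Fin M)) : ℕ := by
  classical exact (X.filter (fun v => cls L N m e v = o)).card

lemma card_eq_cnt (X : Finset (VV L N m e M R)) :
    X.card = ∑ o : Option (Fin L) × Option (Fin M), cnt X o := by
  classical
  unfold cnt
  exact Finset.card_eq_sum_card_fiberwise (fun _ _ => Finset.mem_coe.mpr (Finset.mem_univ _))

/-- adding a point for every set that is not met -/
lemma trans_bound {ι : Type} [Fintype ι] (C : ι → Finset (Fin N)) (hne : ∀ i, (C i).Nonempty)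
    (s : ℕ) (hC : ∀ T : Finset (Fin N), T.card ≤ s → ∃ i, Disjoint (C i) T)
    (T : Finset (Fin N)) (U : Finset ι) (hU : ∀ i, Disjoint (C i) T → i ∈ U) :
    s + 1 ≤ T.card + U.card := by
  classical
  choose x hx using hne
  by_contra hcon
  push Not at hcon
  obtain ⟨i, hi⟩ := hC (T ∪ U.image x) (by
    have h1 := Finset.card_union_le T (U.image x)
    have h2 : (U.image x).card ≤ U.card := Finset.card_image_le
    omega)
  rw [Finset.disjoint_union_right] at hi
  have h3 := hU i hi.1
  exact Finset.disjoint_left.mp hi.2 (hx i) (Finset.mem_image_of_mem x h3)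

/-- The key local estimate. -/
lemma region_bound (s : ℕ) (hM : 2 ≤ M) (hAne : ∀ d, (A d).Nonempty) (hBne : ∀ f, (B f).Nonempty)
    (hA : ∀ T : Finset (Fin N), T.card ≤ s → ∃ d, Disjoint (A d) T)
    (hB : ∀ T : Finset (Fin N), T.card ≤ M + s → ∃ f, Disjoint (B f) T)
    (X : Finset (VV L N m e M R)) (hX : IsDominating (GG L N m e A B) X)
    (hconn : ((GG L N m e A B).induce (X : Set (VV L N m e M R))).Connected) (i : Fin L) :
    M + s + 1 ≤ cnt X (some i, none) + ∑ d : Fin M, cnt X (some i, some d) := by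
  classical
  set a := cnt X (some i, none) with ha
  set T : Finset (Fin N) := univ.filter (fun p => ∃ t, (Sum.inl (Sum.inl (i, p, t)) :
    VV L N m e M R) ∈ X) with hT
  have hTa : T.card ≤ a := by
    let prt : VV L N m e M R → Option (Fin N) := fun v =>
      match v with
      | Sum.inl (Sum.inl (_, p, _)) => some p
      | _ => none
    have h1 : T.image some ⊆ (X.filter (fun v => cls L N m e v = (some i, none))).image prt := by
      intro o ho
      rw [mem_image] at ho
      obtain ⟨p, hp, rfl⟩ := ho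
      rw [hT, mem_filter] at hp
      obtain ⟨-, t, ht⟩ := hp
      rw [mem_image]
      exact ⟨Sum.inl (Sum.inl (i, p, t)), mem_filter.mpr ⟨ht, rfl⟩, rfl⟩
    have h2 := Finset.card_le_card h1
    rw [Finset.card_image_of_injective _ (Option.some_injective _)] at h2
    refine h2.trans (Finset.card_image_le.trans ?_)
    rw [ha, cnt]
  have hmem : ∀ p t, (Sum.inl (Sum.inl (i, p, t)) : VV L N m e M R) ∈ X → p ∈ T := by
    intro p t h
    rw [hT, mem_filter]
    exact ⟨mem_univ _, t, h⟩
  have hcls : ∀ d : Fin M, ∀ Y ⊆ X, (∀ v ∈ Y, cls L N m e v = (some i, some d)) →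
      Y.card ≤ cnt X (some i, some d) := by
    intro d Y hY h
    unfold cnt
    exact Finset.card_le_card fun v hv => mem_filter.mpr ⟨hY hv, h v hv⟩
  by_cases hall : ∀ d : Fin M, (Sum.inr (i, Sum.inl d) : VV L N m e M R) ∈ X
  · -- all `d` are chosen
    set U : Finset (Fin M) := univ.filter (fun d => Disjoint (A d) T) with hU
    have hUb := trans_bound A hAne s hA T U (fun d hd => mem_filter.mpr ⟨mem_univ _, hd⟩)
    have h1 : ∀ d : Fin M, 1 ≤ cnt X (some i, some d) := fun d => by
      have := hcls d {Sum.inr (i, Sum.inl d)} (by simpa using hall d) (by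
        intro v hv
        rw [mem_singleton] at hv
        rw [hv]
        rfl)
      simpa using this
    have h2 : ∀ d ∈ U, 2 ≤ cnt X (some i, some d) := by
      intro d hd
      rw [hU, mem_filter] at hd
      by_contra hlt
      push Not at hlt
      have honly : ∀ v ∈ X, cls L N m e v = (some i, some d) → v = Sum.inr (i, Sum.inl d) := by
        intro v hv hc
        by_contra hne
        have := hcls d {v, Sum.inr (i, Sum.inl d)} (by
          intro w hw
          rw [mem_insert, mem_singleton] at hw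
          rcases hw with rfl | rfl
          · exact hv
          · exact hall d) (by
          intro w hw
          rw [mem_insert, mem_singleton] at hw
          rcases hw with rfl | rfl
          · exact hc
          · rfl)
        rw [Finset.card_pair hne] at this
        omega
      have hcl := closed_all _ hconn (fun w => w.1 = Sum.inr (i, Sum.inl d))
        ⟨Sum.inr (i, Sum.inl d), by simpa using hall d⟩ rfl (by
          rintro ⟨x, hx⟩ ⟨y, hy⟩ hxy hadj
          simp only at hxy
          subst hxy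
          simp only [SimpleGraph.comap_adj, Function.Embedding.subtype_apply] at hadj
          rcases adj_d hadj with ⟨f, rfl⟩ | ⟨p, t, hp, rfl⟩
          · exact honly _ (by simpa using hy) rfl
          · exact absurd (hmem p t (by simpa using hy)) (Finset.disjoint_left.mp hd.2 hp))
      obtain ⟨d', hd'⟩ : ∃ d' : Fin M, d' ≠ d :=
        Fintype.exists_ne_of_one_lt_card (by rw [Fintype.card_fin]; omega) d
      have := hcl ⟨_, by simpa using hall d'⟩
      simp at this
      exact hd' this
    have h3 : ∀ d : Fin M, (1 + if d ∈ U then 1 else 0) ≤ cnt X (some i, some d) := by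
      intro d
      by_cases hd : d ∈ U
      · simp only [hd, if_true]; exact h2 d hd
      · simp only [hd, if_false]; exact h1 d
    have h4 := Finset.sum_le_sum (fun d (_ : d ∈ (Finset.univ : Finset (Fin M))) => h3 d)
    rw [Finset.sum_add_distrib] at h4
    have h5 : M + U.card ≤ ∑ d : Fin M, cnt X (some i, some d) := by simpa using h4
    omega
  · -- some `d` is missing
    push Not at hall
    obtain ⟨d, hd⟩ := hall
    set U : Finset (Fin R) := univ.filter (fun f => Disjoint (B f) T) with hU
    have hUb := trans_bound B hBne (M + s) hB T U (fun f hf => mem_filter.mpr ⟨mem_univ _, hf⟩)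
    have h1 : ∀ f ∈ U, (Sum.inr (i, Sum.inr (d, f)) : VV L N m e M R) ∈ X := by
      intro f hf
      rw [hU, mem_filter] at hf
      rcases hX (Sum.inr (i, Sum.inr (d, f))) with h | ⟨u, hu, hadj⟩
      · exact h
      · exfalso
        rcases adj_df hadj with rfl | ⟨p, t, hp, rfl⟩
        · exact hd hu
        · exact Finset.disjoint_left.mp hf.2 hp (hmem p t hu)
    have h2 : U.card ≤ cnt X (some i, some d) := by
      have h3 := hcls d (U.image fun f => (Sum.inr (i, Sum.inr (d, f)) : VV L N m e M R)) (by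
        intro v hv
        rw [mem_image] at hv
        obtain ⟨f, hf, rfl⟩ := hv
        exact h1 f hf) (by
        intro v hv
        rw [mem_image] at hv
        obtain ⟨f, -, rfl⟩ := hv
        rfl)
      rwa [Finset.card_image_of_injective] at h3
      intro f f' hff
      simpa using hff
    have h3 : cnt X (some i, some d) ≤ ∑ d : Fin M, cnt X (some i, some d) :=
      Finset.single_le_sum (f := fun d => cnt X (some i, some d)) (fun _ _ => Nat.zero_le _)
        (mem_univ d)
    omega

lemma lower_bound (s : ℕ) (hM : 2 ≤ M) (hAne : ∀ d, (A d).Nonempty) (hBne : ∀ f, (B f).Nonempty)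
    (hA : ∀ T : Finset (Fin N), T.card ≤ s → ∃ d, Disjoint (A d) T)
    (hB : ∀ T : Finset (Fin N), T.card ≤ M + s → ∃ f, Disjoint (B f) T)
    (X : Finset (VV L N m e M R)) (hX : IsDominating (GG L N m e A B) X)
    (hconn : ((GG L N m e A B).induce (X : Set (VV L N m e M R))).Connected) :
    L * (M + s + 1) ≤ X.card := by
  rw [card_eq_cnt, Fintype.sum_prod_type, Fintype.sum_option]
  have h1 : ∀ i : Fin L, M + s + 1 ≤ ∑ y : Option (Fin M), cnt X (some i, y) := by
    intro i
    rw [Fintype.sum_option]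
    exact region_bound s hM hAne hBne hA hB X hX hconn i
  have h2 := Finset.sum_le_sum (fun i (_ : i ∈ (Finset.univ : Finset (Fin L))) => h1 i)
  rw [Finset.sum_const, Finset.card_univ, Fintype.card_fin, smul_eq_mul] at h2
  omega

lemma connected (hAne : ∀ d, (A d).Nonempty) (hN : 1 ≤ N) (hm : 1 ≤ m) (hL : 1 ≤ L) :
    (GG L N m e A B).Connected := by
  have hw : ∃ w0 : WW L N m e, True :=
    ⟨Sum.inl (⟨0, by omega⟩, ⟨0, by omega⟩, ⟨0, by omega⟩), trivial⟩
  obtain ⟨w0, -⟩ := hw
  have hW : ∀ w : WW L N m e, (GG L N m e A B).Reachable (Sum.inl w) (Sum.inl w0) := by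
    intro w
    by_cases h : w = w0
    · rw [h]
    · exact (adj_WW h).reachable
  have hD : ∀ (i : Fin L) (d : Fin M),
      (GG L N m e A B).Reachable (Sum.inr (i, Sum.inl d)) (Sum.inl w0) := by
    intro i d
    obtain ⟨b, hb⟩ := hAne d
    have h1 : (GG L N m e A B).Adj
        (Sum.inl (Sum.inl (i, b, ⟨0, by omega⟩))) (Sum.inr (i, Sum.inl d)) := adj_Wd hb
    exact h1.symm.reachable.trans (hW _)
  have hall : ∀ v, (GG L N m e A B).Reachable v (Sum.inl w0) := by
    rintro (w | ⟨i, d | ⟨d, f⟩⟩)
    · exact hW w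
    · exact hD i d
    · exact (adj_ddf.symm.reachable).trans (hD i d)
  exact { preconnected := fun u v => (hall u).trans (hall v).symm
          nonempty := ⟨Sum.inl w0⟩ }

lemma le_ncard_of_image {V : Type} [Fintype V] {α : Type} (T : Finset α) (φ : α → V)
    (hφ : Set.InjOn φ T) (s : Set V) (hs : ∀ x ∈ T, φ x ∈ s) : T.card ≤ s.ncard := by
  classical
  have h1 : ((T.image φ : Finset V) : Set V) ⊆ s := by
    intro y hy
    rw [Finset.mem_coe, Finset.mem_image] at hy
    obtain ⟨x, hx, rfl⟩ := hy
    exact hs x hx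
  have h2 := Set.ncard_le_ncard h1 (Set.toFinite s)
  rw [Set.ncard_coe_finset, Finset.card_image_of_injOn hφ] at h2
  exact h2

lemma degree_ge (k a : ℕ) (hAc : ∀ d, a ≤ (A d).card) (hBc : ∀ f, a ≤ (B f).card)
    (hm : 1 ≤ m) (hL : 1 ≤ L) (hN : a + 1 ≤ N) (hk : k ≤ a * m) (v : VV L N m e M R) :
    k ≤ ((GG L N m e A B).neighborSet v).ncard := by
  classical
  rcases v with w | ⟨i, d | ⟨d, f⟩⟩
  · have h1 := le_ncard_of_image (Finset.univ.erase w) (fun x => (Sum.inl x : VV L N m e M R))
      (fun a _ b _ h => by simpa using h) ((GG L N m e A B).neighborSet (Sum.inl w)) (by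
        intro x hx
        exact adj_WW (Ne.symm (Finset.ne_of_mem_erase hx)))
    rw [Finset.card_erase_of_mem (Finset.mem_univ _), Finset.card_univ] at h1
    have h2 : Fintype.card (WW L N m e) = L * (N * m) + e := by
      simp [Fintype.card_sum, Fintype.card_prod]
    rw [h2] at h1
    have h3 : (a + 1) * m ≤ N * m := Nat.mul_le_mul_right _ hN
    have h4 : (a + 1) * m = a * m + m := by ring
    have h5 : N * m ≤ L * (N * m) := Nat.le_mul_of_pos_left _ hL
    omega
  · have h1 := le_ncard_of_image (A d ×ˢ (Finset.univ : Finset (Fin m)))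
      (fun x => (Sum.inl (Sum.inl (i, x.1, x.2)) : VV L N m e M R))
      (fun a _ b _ h => by
        simp only [Sum.inl.injEq, Prod.mk.injEq, true_and] at h
        exact Prod.ext h.1 h.2)
      ((GG L N m e A B).neighborSet (Sum.inr (i, Sum.inl d))) (by
        intro x hx
        rw [Finset.mem_product] at hx
        exact (adj_Wd hx.1).symm)
    rw [Finset.card_product, Finset.card_univ, Fintype.card_fin] at h1
    exact hk.trans ((Nat.mul_le_mul_right _ (hAc d)).trans h1)
  · have h1 := le_ncard_of_image (B f ×ˢ (Finset.univ : Finset (Fin m)))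
      (fun x => (Sum.inl (Sum.inl (i, x.1, x.2)) : VV L N m e M R))
      (fun a _ b _ h => by
        simp only [Sum.inl.injEq, Prod.mk.injEq, true_and] at h
        exact Prod.ext h.1 h.2)
      ((GG L N m e A B).neighborSet (Sum.inr (i, Sum.inr (d, f)))) (by
        intro x hx
        rw [Finset.mem_product] at hx
        exact (adj_Wf hx.1).symm)
    rw [Finset.card_product, Finset.card_univ, Fintype.card_fin] at h1
    exact hk.trans ((Nat.mul_le_mul_right _ (hBc f)).trans h1)

lemma domNumber_le (hN : 1 ≤ N) (hm : 1 ≤ m) (hL : 1 ≤ L) :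
    domNumber (GG L N m e A B) ≤ L * M + 1 := by
  classical
  have hw : ∃ w0 : WW L N m e, True :=
    ⟨Sum.inl (⟨0, by omega⟩, ⟨0, by omega⟩, ⟨0, by omega⟩), trivial⟩
  obtain ⟨w0, -⟩ := hw
  set S : Finset (VV L N m e M R) := insert (Sum.inl w0)
    ((Finset.univ : Finset (Fin L × Fin M)).image (fun x => Sum.inr (x.1, Sum.inl x.2))) with hS
  have h1 : S.card ≤ L * M + 1 := by
    refine (Finset.card_insert_le _ _).trans ?_
    have h2 : ((Finset.univ : Finset (Fin L × Fin M)).image
      (fun x => (Sum.inr (x.1, Sum.inl x.2) : VV L N m e M R))).card ≤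
        (Finset.univ : Finset (Fin L × Fin M)).card := Finset.card_image_le
    rw [Finset.card_univ, Fintype.card_prod, Fintype.card_fin, Fintype.card_fin] at h2
    omega
  have h3 : IsDominating (GG L N m e A B) S := by
    rintro (w | ⟨i, d | ⟨d, f⟩⟩)
    · by_cases h : w = w0
      · left; rw [h, hS]; simp
      · right
        exact ⟨Sum.inl w0, by rw [hS]; simp, adj_WW h⟩
    · left; rw [hS]; simp
    · right
      exact ⟨Sum.inr (i, Sum.inl d), by rw [hS]; simp, adj_ddf.symm⟩
  have h4 : domNumber (GG L N m e A B) ≤ S.card := Nat.sInf_le ⟨S, h3, rfl⟩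
  exact h4.trans h1

end construction

/-- The general lower bound from two families without small transversals. -/
theorem gap_lower (L N m e M R k n a s : ℕ) (hL : 1 ≤ L) (hm : 1 ≤ m) (hM : 2 ≤ M) (ha : 1 ≤ a)
    (hN : a + 1 ≤ N) (hk : k ≤ a * m) (A : Fin M → Finset (Fin N)) (B : Fin R → Finset (Fin N))
    (hAc : ∀ d, (A d).card = a) (hBc : ∀ f, (B f).card = a)
    (hA : ∀ T : Finset (Fin N), T.card ≤ s → ∃ d, Disjoint (A d) T)
    (hB : ∀ T : Finset (Fin N), T.card ≤ M + s → ∃ f, Disjoint (B f) T)
    (hn : n = L * (N * m + M * (1 + R)) + e) : L * s ≤ gap n k := by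
  have hAne : ∀ d, (A d).Nonempty := fun d => by rw [← Finset.card_pos, hAc]; omega
  have hBne : ∀ d, (B d).Nonempty := fun d => by rw [← Finset.card_pos, hBc]; omega
  have hconn : (GG L N m e A B).Connected := connected hAne (by omega) hm hL
  have hcard : Fintype.card (VV L N m e M R) = n := by
    rw [hn, Fintype.card_sum, Fintype.card_sum, Fintype.card_prod, Fintype.card_prod,
      Fintype.card_prod, Fintype.card_sum, Fintype.card_prod]
    simp only [Fintype.card_fin]
    ring
  have hdom := domNumber_le (L := L) (N := N) (m := m) (e := e) (A := A) (B := B) (by omega) hm hL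
  have hcd : L * (M + s + 1) ≤ connDomNumber (GG L N m e A B) := by
    unfold connDomNumber
    obtain ⟨S, h1, h2, h3⟩ := Nat.sInf_mem (⟨_, univ_mem _ hconn⟩ :
      {m' : ℕ | ∃ S : Finset (VV L N m e M R), IsDominating (GG L N m e A B) S ∧
        ((GG L N m e A B).induce (S : Set (VV L N m e M R))).Connected ∧ S.card = m'}.Nonempty)
    rw [← h3]
    exact lower_bound s hM hAne hBne hA hB S h1 h2
  have hmem : connDomNumber (GG L N m e A B) - domNumber (GG L N m e A B) ∈
      {m : ℕ | ∃ (V : Type) (_ : Fintype V) (G : SimpleGraph V), Fintype.card V = n ∧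
      G.Connected ∧ (∀ v : V, k ≤ (G.neighborSet v).ncard) ∧
      m = connDomNumber G - domNumber G} :=
    ⟨_, inferInstance, GG L N m e A B, hcard, hconn,
      degree_ge k a (fun d => (hAc d).ge) (fun d => (hBc d).ge) hm hL hN hk, rfl⟩
  refine le_trans ?_ (le_csSup (bddAbove_gap n k) hmem)
  have h5 : L * (M + s + 1) = L * M + L * s + L := by ring
  omega

end Pool.Agent.Y423.DG
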