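import Pool.Agent.Y423.DG.Defs

set_option autoImplicit false

/-!
Statements of the two main parts: the greedy upper bound and the lower bound from the construction.
-/

namespace Pool.Agent.Y423.DG

open Finset

/-- Greedy upper bound. -/
def S_UPPER : Prop :=
  ∀ n k : ℕ, 1 ≤ Real.log ((k : ℝ) + 1) → k + 1 < n →
    (gap n k : ℝ) ≤ Real.log (Real.log ((k : ℝ) + 1)) / (-Real.log (1 - ((k : ℝ) + 1) / n)) + 1 +
      6 * (n / ((k : ℝ) + 1))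

/-- Lower bound for densities between `α₀` and `1 - α₀`. -/
def S_CORE : Prop :=
  ∀ α₀ : ℝ, 0 < α₀ → α₀ < 1 / 2 → ∀ ε : ℝ, 0 < ε → ∃ k₀ : ℕ, ∀ k : ℕ, k₀ ≤ k →
    ∀ θ : ℝ, α₀ ≤ θ → θ ≤ 1 - α₀ → ∀ L n : ℕ, 1 ≤ L → (1 + ε) * L * k / θ ≤ n →
      (1 - ε) * L * (Real.log (Real.log k) / (-Real.log (1 - θ))) ≤ (gap n k : ℝ)

/-- Asymptotic formula. -/
def S_MAIN : Prop :=
  ∀ δ : ℝ, 0 < δ → ∀ ε : ℝ, 0 < ε → ∃ k₀ : ℕ, ∀ k : ℕ, k₀ ≤ k → ∀ n : ℕ,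
    (1 + δ) * ((k : ℝ) + 1) ≤ n →
      (1 - ε) * (Real.log (Real.log k) / Real.log ((n : ℝ) / (n - k - 1))) ≤ (gap n k : ℝ) ∧
      (gap n k : ℝ) ≤ (1 + ε) * (Real.log (Real.log k) / Real.log ((n : ℝ) / (n - k - 1)))

end Pool.Agent.Y423.DG
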