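import Pool.Agent.Y423.DG.Fin
import Pool.Agent.Y905.DG423.Upper
import Pool.Agent.Y950.DG423.Core

set_option autoImplicit false

/-!
Both forms of the asymptotic formula.
-/

namespace Pool.Agent.Y423.DG

theorem main : S_MAIN :=
  main_of Pool.Agent.Y905.DG423.t_UPPER Pool.Agent.Y950.DG423.t_CORE

theorem sparse : ∀ ε : ℝ, 0 < ε → ∃ (k₀ : ℕ) (x₀ : ℝ), ∀ k : ℕ, k₀ ≤ k → ∀ n : ℕ,
    x₀ * ((k : ℝ) + 1) ≤ n →
      (1 - ε) * ((n : ℝ) / (k + 1) * Real.log (Real.log k)) ≤ (gap n k : ℝ) ∧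
      (gap n k : ℝ) ≤ (1 + ε) * ((n : ℝ) / (k + 1) * Real.log (Real.log k)) := by
  intro ε₀ hε₀
  set ε := min ε₀ 1 with hεdef
  have hε : 0 < ε := lt_min hε₀ one_pos
  have hε1 : ε ≤ 1 := min_le_right _ _
  have hε2 : ε ≤ ε₀ := min_le_left _ _
  obtain ⟨k₁, hk₁⟩ := main 1 one_pos (ε / 2) (by positivity)
  obtain ⟨k₂, hk₂⟩ := exists_loglog 0
  refine ⟨max k₁ k₂, 2 / ε, fun k hk n hn => ?_⟩
  have hy0 := hk₂ k ((le_max_right _ _).trans hk)
  set y := Real.log (Real.log k) with hy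
  set K : ℝ := (k : ℝ) + 1 with hK
  have hK0 : 0 < K := by positivity
  have h2ε : 2 ≤ 2 / ε := by rw [le_div_iff₀ hε]; linarith
  have hn2 : (1 + 1) * K ≤ n := by
    have := mul_le_mul_of_nonneg_right h2ε hK0.le
    linarith
  have hmain := hk₁ k ((le_max_left _ _).trans hk) n hn2
  have hNK : K < n := by linarith
  have hN0 : (0 : ℝ) < n := hK0.trans hNK
  have hNK' : (0 : ℝ) < (n : ℝ) - K := by linarith
  have hsub : (n : ℝ) - k - 1 = n - K := by rw [hK]; ring
  rw [hsub] at hmain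
  set D := Real.log ((n : ℝ) / (n - K)) with hD
  have hlog : Real.log (1 - K / n) = - D := by
    rw [hD, ← Real.log_inv, inv_div, sub_div, div_self hN0.ne']
  have hDlow : K / n ≤ D := by
    have h1 : 0 < 1 - K / n := by
      rw [sub_pos, div_lt_one hN0]; exact hNK
    have := Real.log_le_sub_one_of_pos h1
    rw [hlog] at this
    linarith
  have hDup : D ≤ K / (n - K) := by
    have h1 : 0 < (n : ℝ) / (n - K) := by positivity
    have := Real.log_le_sub_one_of_pos h1
    have h2 : (n : ℝ) / (n - K) - 1 = K / (n - K) := by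
      field_simp
      ring
    rw [h2] at this
    exact this
  have hD0 : 0 < D := lt_of_lt_of_le (by positivity) hDlow
  have hx0 : 0 < (n : ℝ) / K := by positivity
  have hup : 1 / D ≤ (n : ℝ) / K := by
    have h1 : 1 / D ≤ 1 / (K / n) := one_div_le_one_div_of_le (by positivity) hDlow
    rwa [one_div_div] at h1
  have hlow : (1 - ε / 2) * ((n : ℝ) / K) ≤ 1 / D := by
    have h1 : 1 / (K / (n - K)) ≤ 1 / D := one_div_le_one_div_of_le hD0 hDup
    rw [one_div_div] at h1
    refine le_trans ?_ h1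
    rw [← mul_div_assoc]
    apply div_le_div_of_nonneg_right _ hK0.le
    have h2 : 2 * K ≤ ε * n := by
      have h3 : 2 / ε * K * ε ≤ n * ε := mul_le_mul_of_nonneg_right hn hε.le
      have h4 : 2 / ε * K * ε = 2 * K := by field_simp
      linarith
    linarith
  have hyD : y / D = y * (1 / D) := by rw [mul_one_div]
  have e1 : (1 - ε) ≤ (1 - ε / 2) * (1 - ε / 2) := by linarith [mul_nonneg hε.le hε.le]
  have hxy : 0 ≤ (n : ℝ) / K * y := by positivity
  constructor
  · refine le_trans ?_ hmain.1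
    calc (1 - ε₀) * ((n : ℝ) / K * y) ≤ (1 - ε) * ((n : ℝ) / K * y) :=
          mul_le_mul_of_nonneg_right (by linarith) hxy
      _ ≤ (1 - ε / 2) * (1 - ε / 2) * ((n : ℝ) / K * y) := mul_le_mul_of_nonneg_right e1 hxy
      _ = (1 - ε / 2) * (y * ((1 - ε / 2) * (n / K))) := by ring
      _ ≤ (1 - ε / 2) * (y / D) := by
          rw [hyD]
          exact mul_le_mul_of_nonneg_left (mul_le_mul_of_nonneg_left hlow hy0) (by linarith)
  · refine hmain.2.trans ?_
    calc (1 + ε / 2) * (y / D) ≤ (1 + ε / 2) * (y * (n / K)) := by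
          rw [hyD]
          exact mul_le_mul_of_nonneg_left (mul_le_mul_of_nonneg_left hup hy0) (by linarith)
      _ = (1 + ε / 2) * (n / K * y) := by ring
      _ ≤ (1 + ε₀) * (n / K * y) := mul_le_mul_of_nonneg_right (by linarith) hxy

end Pool.Agent.Y423.DG
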