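import Mathlib

set_option autoImplicit false

/-!
Domination number, connected domination number, and the largest gap between them.
-/

namespace Pool.Agent.Y423.DG

open Finset

/-- `S` is a dominating set of `G`. -/
def IsDominating {V : Type} (G : SimpleGraph V) (S : Finset V) : Prop :=
  ∀ v : V, v ∈ S ∨ ∃ u ∈ S, G.Adj v u

/-- The domination number. -/
noncomputable def domNumber {V : Type} (G : SimpleGraph V) : ℕ :=
  sInf {m : ℕ | ∃ S : Finset V, IsDominating G S ∧ S.card = m}

/-- The connected domination number: least size of a dominating set inducing a connected graph. -/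
noncomputable def connDomNumber {V : Type} (G : SimpleGraph V) : ℕ :=
  sInf {m : ℕ | ∃ S : Finset V, IsDominating G S ∧ (G.induce (S : Set V)).Connected ∧ S.card = m}

/-- `gap n k`: maximum of `γ_c(G) - γ(G)` over connected graphs `G` on `n` vertices with minimum
degree at least `k`. -/
noncomputable def gap (n k : ℕ) : ℕ :=
  sSup {m : ℕ | ∃ (V : Type) (_ : Fintype V) (G : SimpleGraph V), Fintype.card V = n ∧
    G.Connected ∧ (∀ v : V, k ≤ (G.neighborSet v).ncard) ∧ m = connDomNumber G - domNumber G}

lemma univ_mem {V : Type} [Fintype V] (G : SimpleGraph V) (h : G.Connected) :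
    Fintype.card V ∈ {m : ℕ | ∃ S : Finset V, IsDominating G S ∧
      (G.induce (S : Set V)).Connected ∧ S.card = m} := by
  refine ⟨Finset.univ, fun v => Or.inl (Finset.mem_univ v), ?_, Finset.card_univ⟩
  rw [Finset.coe_univ]
  exact (SimpleGraph.induceUnivIso G).connected_iff.mpr h

lemma bddAbove_gap (n k : ℕ) :
    BddAbove {m : ℕ | ∃ (V : Type) (_ : Fintype V) (G : SimpleGraph V), Fintype.card V = n ∧
      G.Connected ∧ (∀ v : V, k ≤ (G.neighborSet v).ncard) ∧
      m = connDomNumber G - domNumber G} := by
  refine ⟨n, ?_⟩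
  rintro m ⟨V, _, G, hn, hconn, _, rfl⟩
  refine (Nat.sub_le _ _).trans ?_
  rw [← hn]
  exact Nat.sInf_le (univ_mem G hconn)

end Pool.Agent.Y423.DG
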