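import Pool.Agent.Y423.DG.Stm

set_option autoImplicit false

/-!
The asymptotic formula from the two bounds.
-/

namespace Pool.Agent.Y423.DG

open Finset Filter

lemma exists_loglog (Y : ℝ) : ∃ k₀ : ℕ, ∀ k : ℕ, k₀ ≤ k → Y ≤ Real.log (Real.log k) := by
  have h : Tendsto (fun k : ℕ => Real.log (Real.log (k : ℝ))) atTop atTop :=
    Real.tendsto_log_atTop.comp (Real.tendsto_log_atTop.comp tendsto_natCast_atTop_atTop)
  have h2 := h.eventually_ge_atTop Y
  rw [eventually_atTop] at h2
  exact h2

lemma sq_small {η : ℝ} (h0 : 0 < η) (h1 : η ≤ 1 / 32) : η ^ 2 ≤ η / 32 := by nlinarith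

lemma aux_z {z : ℝ} (h0 : 0 ≤ z) (h1 : z ≤ 1 / 32) : 1 ≤ (1 + 2 * z) * (1 - z) := by nlinarith

lemma aux_k {k : ℝ} (h : 3 ≤ k) : k + 1 ≤ k ^ 2 := by nlinarith

lemma aux_cube {ε η : ℝ} (h0 : 0 < η) (h1 : η ≤ 1 / 32) (hε : 0 < ε) (h : 32 * η ≤ 2 * ε) :
    (1 - ε) * (1 + η) ≤ (1 - η) * (1 - η) * (1 - η) := by
  have h2 : 0 ≤ η ^ 2 * (3 - η) := by
    apply mul_nonneg (sq_nonneg η)
    linarith
  have h3 : 0 < ε * η := mul_pos hε h0
  have h4 : (1 - η) * (1 - η) * (1 - η) = 1 - 3 * η + η ^ 2 * (3 - η) := by ring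
  rw [h4]
  linarith

theorem main_of (hU : S_UPPER) (hC : S_CORE) : S_MAIN := by
  intro δ₀ hδ₀ ε₀ hε₀
  set δ := min δ₀ 1 with hδdef
  set ε := min ε₀ (1 / 2) with hεdef
  have hδ : 0 < δ := lt_min hδ₀ one_pos
  have hδ1 : δ ≤ 1 := min_le_right _ _
  have hδ2 : δ ≤ δ₀ := min_le_left _ _
  have hε : 0 < ε := lt_min hε₀ (by norm_num)
  have hε1 : ε ≤ 1 / 2 := min_le_right _ _
  have hε2 : ε ≤ ε₀ := min_le_left _ _
  set η := ε * δ / 16 with hη
  have hη0 : 0 < η := by positivity
  have hη1 : η ≤ 1 / 32 := by
    have : ε * δ ≤ 1 / 2 * 1 := mul_le_mul hε1 hδ1 hδ.le (by norm_num)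
    linarith
  have hηε : 32 * η ≤ 2 * ε := by
    have : ε * δ ≤ ε * 1 := mul_le_mul_of_nonneg_left hδ1 hε.le
    linarith
  have hηδ : 32 * η ≤ δ := by
    have : ε * δ ≤ 1 / 2 * δ := mul_le_mul_of_nonneg_right hε1 hδ.le
    linarith
  have hηsq := sq_small hη0 hη1
  have hηsq0 : 0 < η ^ 2 := by positivity
  obtain ⟨k₁, hk₁⟩ := hC (η ^ 2 / 2) (by positivity) (by linarith) η hη0
  obtain ⟨k₂, hk₂⟩ := exists_loglog (max ((1 + 7 * ((1 + δ) / δ)) / ε) 1)
  refine ⟨max k₁ (max k₂ 3), fun k hk n hn => ?_⟩
  have hk3 : 3 ≤ k := (le_max_right _ _).trans ((le_max_right _ _).trans hk)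
  have hkk₁ : k₁ ≤ k := (le_max_left _ _).trans hk
  have hkk₂ : k₂ ≤ k := (le_max_left _ _).trans ((le_max_right _ _).trans hk)
  have hk3R : (3 : ℝ) ≤ k := by exact_mod_cast hk3
  have hy := hk₂ k hkk₂
  set y := Real.log (Real.log k) with hydef
  have hy1 : (1 + 7 * ((1 + δ) / δ)) / ε ≤ y := (le_max_left _ _).trans hy
  have hy2 : 1 ≤ y := (le_max_right _ _).trans hy
  have hyε : 1 + 7 * ((1 + δ) / δ) ≤ ε * y := by
    rw [div_le_iff₀ hε] at hy1
    linarith
  set K : ℝ := (k : ℝ) + 1 with hK
  have hK0 : 0 < K := by positivity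
  have hnK : (1 + δ) * K ≤ n := by
    have : (1 + δ) * K ≤ (1 + δ₀) * K := mul_le_mul_of_nonneg_right (by linarith) hK0.le
    linarith
  have hNK : K < n := by linarith [mul_pos hδ hK0]
  have hN0 : (0 : ℝ) < n := hK0.trans hNK
  have hNK' : (0 : ℝ) < (n : ℝ) - K := by linarith
  have hsub : (n : ℝ) - k - 1 = n - K := by rw [hK]; ring
  rw [hsub]
  set D := Real.log ((n : ℝ) / (n - K)) with hD
  have hlog : Real.log (1 - K / n) = - D := by
    rw [hD, ← Real.log_inv, inv_div, sub_div, div_self hN0.ne']
  have hDlow : K / n ≤ D := by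
    have h1 : 0 < 1 - K / n := by
      rw [sub_pos, div_lt_one hN0]; exact hNK
    have := Real.log_le_sub_one_of_pos h1
    rw [hlog] at this
    linarith
  have hDup : D ≤ K / (n - K) := by
    have h1 : 0 < (n : ℝ) / (n - K) := by positivity
    have := Real.log_le_sub_one_of_pos h1
    have h2 : (n : ℝ) / (n - K) - 1 = K / (n - K) := by
      field_simp
      ring
    rw [h2] at this
    exact this
  have hD0 : 0 < D := lt_of_lt_of_le (by positivity) hDlow
  have hyD : 0 ≤ y / D := by positivity
  have hxδ : (n : ℝ) / (n - K) ≤ (1 + δ) / δ := by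
    rw [div_le_div_iff₀ hNK' hδ]
    linarith
  have hkey : (n : ℝ) / K * D ≤ (1 + δ) / δ := by
    refine le_trans ?_ hxδ
    calc (n : ℝ) / K * D ≤ n / K * (K / (n - K)) := mul_le_mul_of_nonneg_left hDup (by positivity)
      _ = n / (n - K) := by field_simp
  constructor
  · -- lower bound
    refine le_trans (b := (1 - ε) * (y / D)) (mul_le_mul_of_nonneg_right (by linarith) hyD) ?_
    by_cases hx : (n : ℝ) / K ≤ (1 + η) / η ^ 2
    · -- moderate density
      set θ := (1 + η) * (K / n) with hθ
      have haN : 0 < K / n := by positivity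
      have ha1 : K / n ≤ 1 / (1 + δ) := by
        rw [div_le_div_iff₀ hN0 (by positivity)]
        linarith
      have hθlow : η ^ 2 / 2 ≤ θ := by
        rw [div_le_div_iff₀ hK0 (by positivity)] at hx
        have h1 : η ^ 2 ≤ θ := by
          rw [hθ, ← mul_div_assoc, le_div_iff₀ hN0]
          linarith
        have h2 : 0 < η ^ 2 := by positivity
        linarith
      set z := η * (K / (n - K)) with hz
      have hz0 : 0 ≤ z := by positivity
      have hKδ : K / (n - K) ≤ 1 / δ := by
        rw [div_le_div_iff₀ hNK' hδ]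
        linarith
      have hz1 : z ≤ 1 / 32 := by
        have : z ≤ η * (1 / δ) := mul_le_mul_of_nonneg_left hKδ hη0.le
        have h2 : η * (1 / δ) ≤ 1 / 32 := by
          rw [mul_one_div, div_le_div_iff₀ hδ (by norm_num)]
          linarith
        linarith
      have h1z : 1 - θ = (1 - K / n) * (1 - z) := by
        rw [hθ, hz]
        field_simp
        ring
      have h1K : δ / (1 + δ) ≤ 1 - K / n := by
        have : 1 / (1 + δ) = 1 - δ / (1 + δ) := by field_simp; ring
        linarith
      have hδ2' : δ / 2 ≤ δ / (1 + δ) := div_le_div_of_nonneg_left hδ.le (by positivity) (by linarith)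
      have h1θ : δ / 4 ≤ 1 - θ := by
        rw [h1z]
        have : δ / 2 * (1 / 2) ≤ (1 - K / n) * (1 - z) :=
          mul_le_mul (hδ2'.trans h1K) (by linarith) (by norm_num) (by linarith)
        linarith
      have hθup : θ ≤ 1 - η ^ 2 / 2 := by
        have : η ^ 2 / 2 ≤ δ / 4 := by linarith
        linarith
      have hcore := hk₁ k hkk₁ θ hθlow hθup 1 n le_rfl (by
        have h0 : 0 < θ := lt_of_lt_of_le (by positivity) hθlow
        rw [Nat.cast_one, mul_one, div_le_iff₀ h0, hθ]
        have : (n : ℝ) * ((1 + η) * (K / n)) = (1 + η) * K := by field_simp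
        rw [this]
        exact mul_le_mul_of_nonneg_left (by rw [hK]; linarith) (by linarith))
      rw [Nat.cast_one, mul_one] at hcore
      refine le_trans ?_ hcore
      -- comparison of logarithms
      have h1z0 : 0 < 1 - z := by linarith
      have hK1 : 0 < 1 - K / n := lt_of_lt_of_le (by positivity) h1K
      have hlog2 : Real.log (1 - θ) = - D + Real.log (1 - z) := by
        rw [h1z, Real.log_mul hK1.ne' h1z0.ne', hlog]
      have hlz : - Real.log (1 - z) ≤ 2 * z := by
        have h1 : 0 < 1 / (1 - z) := by positivity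
        have h2 := Real.log_le_sub_one_of_pos h1
        rw [one_div, Real.log_inv] at h2
        have h3 : (1 - z)⁻¹ - 1 ≤ 2 * z := by
          have h4 : (1 - z)⁻¹ ≤ 1 + 2 * z := by
            rw [inv_le_iff_one_le_mul₀ h1z0]
            exact aux_z hz0 hz1
          linarith
        linarith
      have hz2 : 2 * z ≤ ε / 4 * D := by
        have h1 : z ≤ η * ((1 + δ) / δ) * (K / n) := by
          rw [hz]
          have : K / (n - K) = n / (n - K) * (K / n) := by field_simp
          rw [this]
          have h2 := mul_le_mul_of_nonneg_right hxδ haN.le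
          have h3 := mul_le_mul_of_nonneg_left h2 hη0.le
          linarith
        have h2 : η * ((1 + δ) / δ) ≤ ε / 8 := by
          rw [hη]
          have : ε * δ / 16 * ((1 + δ) / δ) = ε * (1 + δ) / 16 := by field_simp
          rw [this]
          have := mul_le_mul_of_nonneg_left hδ1 hε.le
          linarith
        have h3 : η * ((1 + δ) / δ) * (K / n) ≤ ε / 8 * D :=
          mul_le_mul h2 hDlow haN.le (by positivity)
        linarith
      have hq : -Real.log (1 - θ) ≤ (1 + ε / 4) * D := by
        rw [hlog2]; linarith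
      have hq0 : 0 < -Real.log (1 - θ) := by
        have : Real.log (1 - z) ≤ 0 := Real.log_nonpos h1z0.le (by linarith)
        rw [hlog2]; linarith
      rw [← mul_div_assoc, ← mul_div_assoc, div_le_div_iff₀ hD0 hq0]
      have h5 : (1 - ε) * (1 + ε / 4) ≤ 1 - η := by linarith [mul_nonneg hε.le hε.le]
      have hy0 : 0 ≤ y := by linarith
      calc (1 - ε) * y * -Real.log (1 - θ) ≤ (1 - ε) * y * ((1 + ε / 4) * D) :=
            mul_le_mul_of_nonneg_left hq (mul_nonneg (by linarith) hy0)
        _ = ((1 - ε) * (1 + ε / 4)) * (y * D) := by ring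
        _ ≤ (1 - η) * (y * D) := mul_le_mul_of_nonneg_right h5 (by positivity)
        _ = (1 - η) * y * D := by ring
    · -- small density: several blocks
      push Not at hx
      set x := (n : ℝ) / K with hxdef
      have hx0 : 0 < x := by positivity
      set u := η * x / (1 + η) with hu
      have hηu : 1 ≤ η * u := by
        rw [hu]
        have h1 : (1 + η) / η ^ 2 * η ^ 2 = 1 + η := by field_simp
        have h2 : (1 + η) / η ^ 2 * η ^ 2 ≤ x * η ^ 2 :=
          mul_le_mul_of_nonneg_right hx.le (by positivity)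
        rw [← mul_div_assoc, le_div_iff₀ (by positivity)]
        linarith
      have hu0 : 0 ≤ u := by positivity
      have hu1 : 1 ≤ u := by
        have := mul_le_mul_of_nonneg_right (show η ≤ 1 by linarith) hu0
        linarith
      set L := ⌊u⌋₊ with hL
      have hL1 : 1 ≤ L := Nat.one_le_floor_iff _ |>.mpr hu1
      have hLu : (L : ℝ) ≤ u := Nat.floor_le (by positivity)
      have hLu' : u - 1 ≤ L := by
        have := Nat.lt_floor_add_one u
        rw [← hL] at this
        linarith
      have hcore := hk₁ k hkk₁ η (by linarith) (by linarith) L n hL1 (by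
        rw [div_le_iff₀ hη0]
        have h1 : (1 + η) * L ≤ η * x := by
          have h2 : (1 + η) * L ≤ (1 + η) * u := mul_le_mul_of_nonneg_left hLu (by positivity)
          have h3 : (1 + η) * u = η * x := by rw [hu]; field_simp
          linarith
        have h2 : (1 + η) * L * k ≤ η * x * K := by
          refine mul_le_mul h1 (by rw [hK]; linarith) (by positivity) (by positivity)
        have h3 : η * x * K = n * η := by rw [hxdef]; field_simp
        linarith)
      refine le_trans ?_ hcore
      have hq0 : 0 < - Real.log (1 - η) := by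
        have := Real.log_le_sub_one_of_pos (show (0 : ℝ) < 1 - η by linarith)
        linarith
      have hq : - Real.log (1 - η) ≤ η / (1 - η) := by
        have h0 : (0 : ℝ) < 1 - η := by linarith
        have h1 : 0 < 1 / (1 - η) := by positivity
        have h2 := Real.log_le_sub_one_of_pos h1
        rw [one_div, Real.log_inv] at h2
        have h3 : (1 - η)⁻¹ - 1 = η / (1 - η) := by field_simp; ring
        linarith
      have hDx : 1 / D ≤ x := by
        rw [div_le_iff₀ hD0]
        have h1 : x * (K / n) ≤ x * D := mul_le_mul_of_nonneg_left hDlow hx0.le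
        have h2 : x * (K / n) = 1 := by rw [hxdef]; field_simp
        linarith
      have hy0 : 0 ≤ y := by linarith
      -- left ≤ (1-ε) y x
      have hl : (1 - ε) * (y / D) ≤ (1 - ε) * (y * x) := by
        apply mul_le_mul_of_nonneg_left _ (by linarith)
        rw [div_eq_mul_one_div]
        exact mul_le_mul_of_nonneg_left hDx hy0
      refine hl.trans ?_
      have hLlow : (1 - η) * u ≤ L := by linarith
      have hyq : y * ((1 - η) / η) ≤ y / -Real.log (1 - η) := by
        rw [div_eq_mul_inv y]
        apply mul_le_mul_of_nonneg_left _ hy0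
        rw [show (1 - η) / η = (η / (1 - η))⁻¹ by rw [inv_div]]
        exact inv_anti₀ hq0 hq
      have h0 : (0 : ℝ) ≤ 1 - η := by linarith
      calc (1 - ε) * (y * x) ≤ ((1 - η) * (1 - η) * (1 - η) / (1 + η)) * (y * x) := by
            apply mul_le_mul_of_nonneg_right _ (by positivity)
            rw [le_div_iff₀ (by positivity)]
            exact aux_cube hη0 hη1 hε hηε
        _ = (1 - η) * ((1 - η) * u) * (y * ((1 - η) / η)) := by
            rw [hu]; field_simp
        _ ≤ (1 - η) * L * (y / -Real.log (1 - η)) := by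
            apply mul_le_mul (mul_le_mul_of_nonneg_left hLlow h0) hyq
              (by positivity) (by positivity)
  · -- upper bound
    refine le_trans ?_ (mul_le_mul_of_nonneg_right (show (1 + ε) ≤ 1 + ε₀ by linarith) hyD)
    have hlogk : 1 < Real.log k := by
      rw [Real.lt_log_iff_exp_lt (by positivity)]
      exact lt_of_lt_of_le (by linarith [Real.exp_one_lt_d9]) hk3R
    have hup := hU n k (by
      have : Real.log k ≤ Real.log ((k : ℝ) + 1) := Real.log_le_log (by positivity) (by linarith)
      linarith) (by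
      have : ((k + 1 : ℕ) : ℝ) < n := by push_cast; exact hNK
      exact_mod_cast this)
    rw [← hK, hlog, neg_neg] at hup
    refine hup.trans ?_
    have hK2 : Real.log K ≤ 2 * Real.log k := by
      rw [← Real.log_rpow (by positivity)]
      apply Real.log_le_log hK0
      rw [hK]
      norm_num
      exact aux_k hk3R
    have hll : Real.log (Real.log K) ≤ y + 1 := by
      have h1 : Real.log (Real.log K) ≤ Real.log (2 * Real.log k) := by
        apply Real.log_le_log _ hK2
        apply Real.log_pos
        rw [hK]; linarith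
      rw [Real.log_mul (by norm_num) (by linarith)] at h1
      have h2 : Real.log 2 ≤ 1 := by linarith [Real.log_two_lt_d9]
      linarith
    have h7 : 1 + 6 * ((n : ℝ) / K) ≤ 7 * ((1 + δ) / δ) / D := by
      rw [le_div_iff₀ hD0]
      have h1 : (1 : ℝ) ≤ n / K := by rw [le_div_iff₀ hK0]; linarith
      have h2 : (1 + 6 * ((n : ℝ) / K)) * D ≤ (7 * (n / K)) * D :=
        mul_le_mul_of_nonneg_right (by linarith) hD0.le
      linarith
    have h8 : Real.log (Real.log K) / D ≤ (y + 1) / D := div_le_div_of_nonneg_right hll hD0.le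
    calc Real.log (Real.log K) / D + 1 + 6 * ((n : ℝ) / K)
        ≤ (y + 1) / D + 7 * ((1 + δ) / δ) / D := by linarith
      _ = (y + (1 + 7 * ((1 + δ) / δ))) / D := by ring
      _ ≤ (y + ε * y) / D := div_le_div_of_nonneg_right (by linarith) hD0.le
      _ = (1 + ε) * (y / D) := by ring

end Pool.Agent.Y423.DG
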